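import Mathlib

set_option autoImplicit false

namespace Pool.Agent.MP_ad2fa1_an.H33

open MeasureTheory Filter Topology Set

/-- The hypotheses (H1)-(H8) on the pair `f, g`. -/
def Hyp (f g : ℝ → ℝ) : Prop :=
  -- (H1)
  (ContDiff ℝ 1 f ∧ ContDiff ℝ 1 g ∧ IntegrableOn (fun t => t * f t) (Iic 0) ∧
    ∃ C : ℝ, ∀ u, |g u| + |deriv g u| ≤ C) ∧
  -- (H2)
  ((∀ t, 0 < f t) ∧ Tendsto f atTop atTop ∧ g 0 = 0 ∧ ∀ u < 0, 0 < g u) ∧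
  -- (H3)
  (∀ t, 0 ≤ deriv f t) ∧
  -- (H4)
  (∃ M > 0, (∀ u < -M, 0 < deriv g u) ∧
    ∫⁻ t in Ioi (0 : ℝ), ENNReal.ofReal (f t * g (-M * t)) < ⊤) ∧
  -- (H5)
  (∫⁻ t in Ioi (0 : ℝ), ENNReal.ofReal (f t * g (-(sInf {M : ℝ | 0 < M ∧
      ∫⁻ s in Ioi (0 : ℝ), ENNReal.ofReal (f s * g (-M * s)) < ⊤}) * t)) = ⊤ ∧
    ∀ c > 0, ∃ ε > 0, ∀ t > 0, ε ≤ f (t - c) / f t) ∧
  -- (H6) and (H7)
  ((∀ u, IntegrableOn g (Iic u)) ∧ ∃ f₁ g₁ : ℝ,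
    Tendsto (fun t => deriv f t / f t) atTop (𝓝 f₁) ∧
    Tendsto (fun u => (∫ s in Iic u, g s) / g u) atBot (𝓝 g₁) ∧
    (∀ t, f₁ ≤ deriv f t / f t) ∧ ∀ u < 0, g₁ ≤ (∫ s in Iic u, g s) / g u) ∧
  -- (H8)
  (∃ δ > 0, ∀ u ∈ Icc (-δ) 0, deriv g u ≤ 0)

/-- `u` solves `Δ u + p(|x|) q(e^u) = 4 π N δ` in the sense of distributions on the plane, and is
smooth away from the origin. -/
def IsSol (N : ℝ) (p q : ℝ → ℝ) (u : EuclideanSpace ℝ (Fin 2) → ℝ) : Prop :=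
  LocallyIntegrable u ∧ ContDiffOn ℝ (⊤ : ℕ∞) u {0}ᶜ ∧
  LocallyIntegrable (fun x => p ‖x‖ * q (Real.exp (u x))) ∧
  ∀ φ : EuclideanSpace ℝ (Fin 2) → ℝ, ContDiff ℝ (⊤ : ℕ∞) φ → HasCompactSupport φ →
    (∫ x, u x * Laplacian.laplacian φ x) + ∫ x, p ‖x‖ * q (Real.exp (u x)) * φ x =
      4 * Real.pi * N * φ 0

end Pool.Agent.MP_ad2fa1_an.H33
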