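import Pool.Agent.MP_ad2fa1_an.H33.Green

set_option autoImplicit false

namespace Pool.Agent.MP_ad2fa1_an.H33

open MeasureTheory Laplacian Filter Topology Set

theorem finrank_E2 : Module.finrank ℝ E2 = 2 := by simp [E2]

theorem locInt_log : LocallyIntegrable (fun x : E2 => Real.log ‖x‖) := by
  have h1 : LocallyIntegrable (fun x : E2 => ‖x‖⁻¹) := by
    refine locallyIntegrable_of_norm_le_rpow (C := 1) (α := 1) (by rw [finrank_E2]; norm_num)
      (by rw [finrank_E2]; norm_num) (Eventually.of_forall fun x => ?_) ?_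
    · simp [Real.rpow_neg_one]
    · exact (measurable_norm.inv).aestronglyMeasurable
  have h2 : LocallyIntegrable (fun x : E2 => ‖x‖) := continuous_norm.locallyIntegrable
  refine (h1.add h2).mono (measurable_norm.log).aestronglyMeasurable
    (Eventually.of_forall fun x => ?_)
  have h3 := Real.neg_inv_le_log (norm_nonneg x)
  have h4 := Real.log_le_self (norm_nonneg x)
  have h5 : 0 ≤ ‖x‖⁻¹ := by positivity
  have h6 := norm_nonneg x
  simp only [Pi.add_apply, Real.norm_eq_abs]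
  rw [abs_of_nonneg (add_nonneg h5 h6), abs_le]
  constructor <;> linarith

theorem integrable_bubble : Integrable (fun x : E2 => 4 / (1 + ‖x‖ ^ 2) ^ 2) := by
  have h := (integrable_rpow_neg_one_add_norm_sq (E := E2) (μ := volume) (r := 4)
    (by rw [finrank_E2]; norm_num)).const_mul 4
  refine h.congr (Eventually.of_forall fun x => ?_)
  have hp : 0 < 1 + ‖x‖ ^ 2 := by positivity
  show 4 * (1 + ‖x‖ ^ 2) ^ (-(4 : ℝ) / 2) = 4 / (1 + ‖x‖ ^ 2) ^ 2
  rw [show (-(4 : ℝ) / 2) = -((2 : ℕ) : ℝ) by norm_num, Real.rpow_neg hp.le, Real.rpow_natCast,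
    div_eq_mul_inv]

theorem integral_bubble : ∫ x : E2, 4 / (1 + ‖x‖ ^ 2) ^ 2 = 4 * Real.pi := by
  have h := integral_fun_norm_addHaar (volume : Measure E2)
    (fun y : ℝ => 4 / (1 + y ^ 2) ^ 2)
  have h2 : ∫ y in Ioi (0 : ℝ), y * (4 / (1 + y ^ 2) ^ 2) = 2 := by
    have hd : ∀ y ∈ Ici (0 : ℝ), HasDerivAt (fun y : ℝ => -2 * (1 + y ^ 2)⁻¹)
        (y * (4 / (1 + y ^ 2) ^ 2)) y := by
      intro y _
      have hp : 1 + y ^ 2 ≠ 0 := by positivity
      have := ((((hasDerivAt_id y).fun_pow 2).const_add 1).fun_inv hp).const_mul (-2)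
      refine this.congr_deriv ?_
      simp only [id]
      field_simp
      ring
    have hl : Tendsto (fun y : ℝ => -2 * (1 + y ^ 2)⁻¹) atTop (𝓝 (-2 * 0)) := by
      apply Tendsto.const_mul
      apply tendsto_inv_atTop_zero.comp
      exact tendsto_atTop_add_const_left _ _ (tendsto_pow_atTop (by norm_num))
    rw [integral_Ioi_of_hasDerivAt_of_nonneg' hd (fun y hy => by
      have : 0 < y := hy
      positivity) hl]
    norm_num
  rw [h, finrank_E2]
  simp only [Nat.add_one_sub_one, pow_one, smul_eq_mul, h2, Measure.real,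
    EuclideanSpace.volume_ball_fin_two]
  simp [ENNReal.toReal_ofReal Real.pi_pos.le]
  ring

/-- the fundamental solution of the planar Laplacian -/
theorem fundamental {φ : E2 → ℝ} (hφ : ContDiff ℝ 2 φ) (hc : HasCompactSupport φ) :
    ∫ x, 2 * Real.log ‖x‖ * Δ φ x = 4 * Real.pi * φ 0 := by
  have cφ := hφ.continuous
  have cΔ := lap_cont hφ
  have sΔ := lap_supp hc
  obtain ⟨C, hC⟩ := hc.exists_bound_of_continuous cφ
  have hk : ∀ k : ℕ, (0 : ℝ) < (k : ℝ) + 1 := fun k => by positivity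
  have key : ∀ k : ℕ, ∫ x : E2, Real.log ((((k : ℝ) + 1)⁻¹) ^ 2 + ‖x‖ ^ 2) * Δ φ x =
      ∫ y : E2, 4 / (1 + ‖y‖ ^ 2) ^ 2 * φ (((k : ℝ) + 1)⁻¹ • y) := by
    intro k
    set R : ℝ := (k : ℝ) + 1 with hR
    have hR0 : 0 < R := hk k
    have h := green_logF (F := fun z => (R : ℂ) * z) (F' := fun _ => (R : ℂ)) (F'' := fun _ => 0)
      (fun z => by simpa using (hasDerivAt_id z).const_mul (R : ℂ))
      (fun z => hasDerivAt_const z _) continuous_const hφ hc
    simp only [norm_mul, LinearIsometryEquiv.norm_map, Complex.norm_real, Real.norm_eq_abs,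
      abs_of_pos hR0] at h
    have e1 : ∀ x : E2, Real.log (1 + (R * ‖x‖) ^ 2) * Δ φ x =
        Real.log (R ^ 2) * Δ φ x + Real.log ((R⁻¹) ^ 2 + ‖x‖ ^ 2) * Δ φ x := by
      intro x
      rw [← add_mul, ← Real.log_mul (by positivity) (by positivity)]
      congr 2
      field_simp
    have c1 : Continuous fun x : E2 => Real.log ((R⁻¹) ^ 2 + ‖x‖ ^ 2) :=
      Continuous.log (by fun_prop) fun x => by positivity
    simp only [e1] at h
    rw [integral_add (int_mul continuous_const cΔ sΔ) (int_mul c1 cΔ sΔ), integral_const_mul,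
      integral_lap hφ hc, mul_zero, zero_add] at h
    rw [h]
    have h2 := Measure.integral_comp_smul (volume : Measure E2)
      (fun y : E2 => 4 / (1 + ‖y‖ ^ 2) ^ 2 * φ (R⁻¹ • y)) R
    rw [finrank_E2, abs_of_pos (by positivity), smul_eq_mul] at h2
    have h3 : ∫ y : E2, 4 / (1 + ‖y‖ ^ 2) ^ 2 * φ (R⁻¹ • y) =
        R ^ 2 * ∫ x : E2, 4 / (1 + ‖R • x‖ ^ 2) ^ 2 * φ (R⁻¹ • R • x) := by
      rw [h2]; field_simp
    rw [h3, ← integral_const_mul]
    refine integral_congr_ae (Eventually.of_forall fun x => ?_)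
    simp only [smul_smul, inv_mul_cancel₀ hR0.ne', one_smul, norm_smul, Real.norm_eq_abs,
      abs_of_pos hR0]
    ring
  have hinv : Tendsto (fun k : ℕ => ((k : ℝ) + 1)⁻¹) atTop (𝓝 0) :=
    tendsto_inv_atTop_zero.comp (tendsto_atTop_add_const_right _ _ tendsto_natCast_atTop_atTop)
  have lim1 : Tendsto (fun k : ℕ => ∫ y : E2, 4 / (1 + ‖y‖ ^ 2) ^ 2 * φ (((k : ℝ) + 1)⁻¹ • y))
      atTop (𝓝 (∫ y : E2, 4 / (1 + ‖y‖ ^ 2) ^ 2 * φ 0)) := by
    refine tendsto_integral_of_dominated_convergence (fun y => 4 / (1 + ‖y‖ ^ 2) ^ 2 * C)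
      (fun k => ?_) (integrable_bubble.mul_const C) (fun k => Eventually.of_forall fun y => ?_)
      (Eventually.of_forall fun y => ?_)
    · refine Continuous.aestronglyMeasurable (Continuous.mul ?_ (by fun_prop))
      exact Continuous.div continuous_const (by fun_prop) fun x => by positivity
    · rw [norm_mul, Real.norm_eq_abs, abs_of_pos (by positivity)]
      exact mul_le_mul_of_nonneg_left (hC _) (by positivity)
    · apply Tendsto.const_mul
      apply (cφ.tendsto 0).comp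
      simpa using hinv.smul_const y
  have lim2 : Tendsto (fun k : ℕ =>
      ∫ x : E2, Real.log ((((k : ℝ) + 1)⁻¹) ^ 2 + ‖x‖ ^ 2) * Δ φ x) atTop
      (𝓝 (∫ x : E2, 2 * Real.log ‖x‖ * Δ φ x)) := by
    have hne : ∀ᵐ x : E2, x ≠ 0 := by
      have : ({0}ᶜ : Set E2) ∈ ae (volume : Measure E2) := compl_mem_ae_iff.mpr (measure_singleton _)
      filter_upwards [this] with x hx using hx
    have hb : LocallyIntegrable
        (fun x : E2 => ‖2 * Real.log ‖x‖‖ + Real.log (1 + ‖x‖ ^ 2)) := by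
      have h1 : LocallyIntegrable (fun x : E2 => ‖2 * Real.log ‖x‖‖) :=
        fun x => ((locInt_log x).imp fun s hs => ⟨hs.1, (hs.2.const_mul 2).norm⟩)
      have h2 : LocallyIntegrable (fun x : E2 => Real.log (1 + ‖x‖ ^ 2)) :=
        (Continuous.log (by fun_prop) fun x => by positivity).locallyIntegrable
      exact h1.add h2
    refine tendsto_integral_of_dominated_convergence
      (fun x => (‖2 * Real.log ‖x‖‖ + Real.log (1 + ‖x‖ ^ 2)) • ‖Δ φ x‖)
      (fun k => ?_) (hb.integrable_smul_right_of_hasCompactSupport cΔ.norm sΔ.norm)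
      (fun k => ?_) ?_
    · refine Continuous.aestronglyMeasurable (Continuous.mul ?_ cΔ)
      have := hk k
      exact Continuous.log (by fun_prop) fun x => by positivity
    · filter_upwards [hne] with x hx
      rw [norm_mul, smul_eq_mul]
      refine mul_le_mul_of_nonneg_right ?_ (norm_nonneg _)
      have hx' : 0 < ‖x‖ := norm_pos_iff.mpr hx
      have h1 : ((k : ℝ) + 1)⁻¹ ≤ 1 := inv_le_one_of_one_le₀ (by linarith [Nat.cast_nonneg (α := ℝ) k])
      have h0 : 0 < ((k : ℝ) + 1)⁻¹ := inv_pos.mpr (hk k)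
      have h2 : Real.log ((((k : ℝ) + 1)⁻¹) ^ 2 + ‖x‖ ^ 2) ≤ Real.log (1 + ‖x‖ ^ 2) :=
        Real.log_le_log (by positivity) (by nlinarith)
      have h3 : Real.log (‖x‖ ^ 2) ≤ Real.log ((((k : ℝ) + 1)⁻¹) ^ 2 + ‖x‖ ^ 2) :=
        Real.log_le_log (by positivity) (by nlinarith)
      rw [Real.log_pow] at h3
      have h4 : 0 ≤ Real.log (1 + ‖x‖ ^ 2) := Real.log_nonneg (by nlinarith)
      have h5 := neg_abs_le (2 * Real.log ‖x‖)
      have h6 := abs_nonneg (2 * Real.log ‖x‖)
      simp only [Real.norm_eq_abs]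
      rw [abs_le]
      push_cast at h3
      constructor <;> linarith
    · filter_upwards [hne] with x hx
      apply Tendsto.mul_const
      have hx' : 0 < ‖x‖ := norm_pos_iff.mpr hx
      have h1 : Tendsto (fun k : ℕ => (((k : ℝ) + 1)⁻¹) ^ 2 + ‖x‖ ^ 2) atTop
          (𝓝 (0 ^ 2 + ‖x‖ ^ 2)) := (hinv.pow 2).add_const _
      have h2 := h1.log (by positivity)
      simpa [Real.log_pow] using h2
  simp only [key] at lim2
  rw [tendsto_nhds_unique lim2 lim1, integral_mul_const, integral_bubble]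

end Pool.Agent.MP_ad2fa1_an.H33
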