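import Mathlib

set_option autoImplicit false

namespace Pool.Agent.MP_ad2fa1_an.H33

open MeasureTheory Laplacian Filter Topology

/-- the plane -/
abbrev E2 : Type := EuclideanSpace ℝ (Fin 2)

/-- the identification of the plane with the complex numbers -/
noncomputable def zeta : E2 ≃ₗᵢ[ℝ] ℂ := Complex.orthonormalBasisOneI.repr.symm

theorem int_mul {a b : E2 → ℝ} (ha : Continuous a) (hb : Continuous b)
    (hs : HasCompactSupport b) : Integrable (fun z => a z * b z) :=
  (ha.mul hb).integrable_of_hasCompactSupport hs.mul_left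

theorem ibp2 (v : E2) {L L1 L2 φ : E2 → ℝ} (hL : Continuous L) (hL1 : Continuous L1)
    (hL2 : Continuous L2) (h1 : ∀ z, HasLineDerivAt ℝ L (L1 z) z v)
    (h2 : ∀ z, HasLineDerivAt ℝ L1 (L2 z) z v) (hφ : ContDiff ℝ 2 φ) (hc : HasCompactSupport φ) :
    ∫ z, L z * iteratedFDeriv ℝ 2 φ z ![v, v] = ∫ z, L2 z * φ z := by
  have hφ1 : ContDiff ℝ 1 (fderiv ℝ φ) := hφ.fderiv_right (m := 1) (by norm_num)
  have hφ2 : Continuous (fderiv ℝ (fderiv ℝ φ)) := hφ1.continuous_fderiv (by norm_num)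
  let φ1 : E2 → ℝ := fun z => fderiv ℝ φ z v
  let φ2 : E2 → ℝ := fun z => fderiv ℝ (fderiv ℝ φ) z v v
  have c0 : Continuous φ := hφ.continuous
  have c1 : Continuous φ1 := hφ1.continuous.clm_apply continuous_const
  have c2 : Continuous φ2 := (hφ2.clm_apply continuous_const).clm_apply continuous_const
  have s1 : HasCompactSupport φ1 := hc.fderiv_apply ℝ v
  have s2 : HasCompactSupport φ2 :=
    (hc.fderiv ℝ).fderiv ℝ |>.comp_left (g := fun T : E2 →L[ℝ] E2 →L[ℝ] ℝ => T v v) (by simp)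
  have d1 : ∀ z, HasLineDerivAt ℝ φ (φ1 z) z v := fun z =>
    ((hφ.differentiable (by norm_num)) z).hasFDerivAt.hasLineDerivAt v
  have d2 : ∀ z, HasLineDerivAt ℝ φ1 (φ2 z) z v := fun z => by
    have h := ((hφ1.differentiable (by norm_num)) z).hasFDerivAt.hasLineDerivAt v
    have h' := HasDerivAt.clm_apply h (hasDerivAt_const (0 : ℝ) v)
    simpa [HasLineDerivAt, φ1, φ2] using h'
  have int : ∀ {a b : E2 → ℝ}, Continuous a → Continuous b → HasCompactSupport b →
      Integrable (fun z => ContinuousLinearMap.mul ℝ ℝ (a z) (b z)) := by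
    intro a b ha hb hs
    exact (ha.mul hb).integrable_of_hasCompactSupport hs.mul_left
  have e1 := integral_bilinear_hasLineDerivAt_right_eq_neg_left_of_integrable
    (μ := (volume : Measure E2)) (B := ContinuousLinearMap.mul ℝ ℝ) (v := v)
    (int hL1 c1 s1) (int hL c2 s2) (int hL c1 s1) (fun x _ => h1 x) (fun x _ => d2 x)
  have e2 := integral_bilinear_hasLineDerivAt_right_eq_neg_left_of_integrable
    (μ := (volume : Measure E2)) (B := ContinuousLinearMap.mul ℝ ℝ) (v := v)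
    (int hL2 c0 hc) (int hL1 c1 s1) (int hL1 c0 hc) (fun x _ => h2 x) (fun x _ => d1 x)
  simp only [ContinuousLinearMap.mul_apply'] at e1 e2
  have e3 : ∀ z, iteratedFDeriv ℝ 2 φ z ![v, v] = φ2 z := fun z => by
    rw [iteratedFDeriv_two_apply]; rfl
  simp only [e3]
  rw [e1, e2, neg_neg]

theorem iter_cont {φ : E2 → ℝ} (hφ : ContDiff ℝ 2 φ) (v : E2) :
    Continuous fun z => iteratedFDeriv ℝ 2 φ z ![v, v] :=
  (hφ.continuous_iteratedFDeriv le_rfl).eval_const _

theorem iter_supp {φ : E2 → ℝ} (hc : HasCompactSupport φ) (v : E2) :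
    HasCompactSupport fun z => iteratedFDeriv ℝ 2 φ z ![v, v] :=
  (hc.iteratedFDeriv 2).comp_left
    (g := fun T : ContinuousMultilinearMap ℝ (fun _ : Fin 2 => E2) ℝ => T ![v, v]) (by simp)

/-- first basis vector -/
noncomputable def e0 : E2 := EuclideanSpace.basisFun (Fin 2) ℝ 0
/-- second basis vector -/
noncomputable def e1 : E2 := EuclideanSpace.basisFun (Fin 2) ℝ 1

theorem zeta_e0 : zeta e0 = 1 := by
  simp [zeta, e0]

theorem zeta_e1 : zeta e1 = Complex.I := by
  simp [zeta, e1]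

theorem lap_eq (φ : E2 → ℝ) (z : E2) :
    Δ φ z = iteratedFDeriv ℝ 2 φ z ![e0, e0] + iteratedFDeriv ℝ 2 φ z ![e1, e1] := by
  rw [InnerProductSpace.laplacian_eq_iteratedFDeriv_orthonormalBasis φ
    (EuclideanSpace.basisFun (Fin 2) ℝ)]
  simp only [Fin.sum_univ_two]
  rfl

theorem lap_cont {φ : E2 → ℝ} (hφ : ContDiff ℝ 2 φ) : Continuous (Δ φ) := by
  have : Δ φ = fun z => iteratedFDeriv ℝ 2 φ z ![e0, e0] + iteratedFDeriv ℝ 2 φ z ![e1, e1] :=
    funext (lap_eq φ)
  rw [this]
  exact (iter_cont hφ _).add (iter_cont hφ _)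

theorem lap_supp {φ : E2 → ℝ} (hc : HasCompactSupport φ) : HasCompactSupport (Δ φ) := by
  have : Δ φ = fun z => iteratedFDeriv ℝ 2 φ z ![e0, e0] + iteratedFDeriv ℝ 2 φ z ![e1, e1] :=
    funext (lap_eq φ)
  rw [this]
  exact (iter_supp hc _).add (iter_supp hc _)

section logF

variable {F F' F'' : ℂ → ℂ}

theorem path_re_im (G G' : ℂ → ℂ) (hG : ∀ z, HasDerivAt G (G' z) z) (z w : ℂ) :
    HasDerivAt (fun t : ℝ => (G (z + t * w)).re) (G' z * w).re 0 ∧
    HasDerivAt (fun t : ℝ => (G (z + t * w)).im) (G' z * w).im 0 := by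
  have h1 : HasDerivAt (fun s : ℂ => z + s * w) w ((0 : ℝ) : ℂ) := by
    simpa using ((hasDerivAt_id ((0 : ℝ) : ℂ)).mul_const w).const_add z
  have h2 : HasDerivAt (fun s : ℂ => G (z + s * w)) (G' z * w) ((0 : ℝ) : ℂ) := by
    have h3 : HasDerivAt G (G' z) (z + ((0 : ℝ) : ℂ) * w) := by simpa using hG z
    exact h3.comp ((0 : ℝ) : ℂ) h1
  have h4 := h2.comp_ofReal
  exact ⟨Complex.reCLM.hasFDerivAt.comp_hasDerivAt (0 : ℝ) h4,
    Complex.imCLM.hasFDerivAt.comp_hasDerivAt (0 : ℝ) h4⟩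

/-- denominator -/
noncomputable def AA (F : ℂ → ℂ) (z : ℂ) : ℝ := 1 + (F z).re ^ 2 + (F z).im ^ 2
/-- numerator of the first derivative -/
noncomputable def BB (F F' : ℂ → ℂ) (w z : ℂ) : ℝ :=
  2 * ((F z).re * (F' z * w).re + (F z).im * (F' z * w).im)
/-- derivative of the numerator -/
noncomputable def CC (F F' F'' : ℂ → ℂ) (w z : ℂ) : ℝ :=
  2 * ((F' z * w).re ^ 2 + (F z).re * (F'' z * w * w).re +
    ((F' z * w).im ^ 2 + (F z).im * (F'' z * w * w).im))

theorem AA_pos (F : ℂ → ℂ) (z : ℂ) : 0 < AA F z := by unfold AA; positivity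

theorem AA_eq (F : ℂ → ℂ) (z : ℂ) : AA F z = 1 + ‖F z‖ ^ 2 := by
  rw [Complex.sq_norm, Complex.normSq_apply]; unfold AA; ring

theorem hasDerivAt_AA (hF : ∀ z, HasDerivAt F (F' z) z) (z w : ℂ) :
    HasDerivAt (fun t : ℝ => AA F (z + t * w)) (BB F F' w z) 0 := by
  obtain ⟨h1, h2⟩ := path_re_im F F' hF z w
  have := ((h1.fun_pow 2).const_add 1).fun_add (h2.fun_pow 2)
  refine this.congr_deriv ?_
  simp [BB]
  ring

theorem hasDerivAt_BB (hF : ∀ z, HasDerivAt F (F' z) z) (hF' : ∀ z, HasDerivAt F' (F'' z) z)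
    (z w : ℂ) :
    HasDerivAt (fun t : ℝ => BB F F' w (z + t * w)) (CC F F' F'' w z) 0 := by
  obtain ⟨h1, h2⟩ := path_re_im F F' hF z w
  obtain ⟨h3, h4⟩ := path_re_im (fun z => F' z * w) (fun z => F'' z * w)
    (fun z => (hF' z).mul_const w) z w
  have := ((h1.fun_mul h3).fun_add (h2.fun_mul h4)).const_mul 2
  refine this.congr_deriv ?_
  simp only [CC, Complex.ofReal_zero, zero_mul, add_zero]
  ring

theorem green_logF (hF : ∀ z, HasDerivAt F (F' z) z) (hF' : ∀ z, HasDerivAt F' (F'' z) z)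
    (hF'' : Continuous F'') {φ : E2 → ℝ} (hφ : ContDiff ℝ 2 φ) (hc : HasCompactSupport φ) :
    ∫ x, Real.log (1 + ‖F (zeta x)‖ ^ 2) * Δ φ x =
      ∫ x, 4 * ‖F' (zeta x)‖ ^ 2 / (1 + ‖F (zeta x)‖ ^ 2) ^ 2 * φ x := by
  have cF : Continuous F := continuous_iff_continuousAt.mpr fun z => (hF z).continuousAt
  have cF' : Continuous F' := continuous_iff_continuousAt.mpr fun z => (hF' z).continuousAt
  have cA : Continuous (AA F) := by unfold AA; fun_prop
  have cB : ∀ w, Continuous (BB F F' w) := fun w => by unfold BB; fun_prop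
  have cC : ∀ w, Continuous (CC F F' F'' w) := fun w => by unfold CC; fun_prop
  have cz : Continuous zeta := zeta.continuous
  have cL : Continuous fun x : E2 => Real.log (AA F (zeta x)) :=
    (cA.comp cz).log fun x => (AA_pos F _).ne'
  have cL2 : ∀ w, Continuous fun x : E2 =>
      (CC F F' F'' w (zeta x) * AA F (zeta x) - BB F F' w (zeta x) * BB F F' w (zeta x)) /
        AA F (zeta x) ^ 2 := fun w =>
    ((((cC w).comp cz).mul (cA.comp cz)).sub (((cB w).comp cz).mul ((cB w).comp cz))).div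
      ((cA.comp cz).pow 2) fun x => pow_ne_zero 2 (AA_pos F _).ne'
  have key : ∀ v : E2, ∫ x, Real.log (AA F (zeta x)) * iteratedFDeriv ℝ 2 φ x ![v, v] =
      ∫ x, (CC F F' F'' (zeta v) (zeta x) * AA F (zeta x) -
        BB F F' (zeta v) (zeta x) * BB F F' (zeta v) (zeta x)) / AA F (zeta x) ^ 2 * φ x := by
    intro v
    have hz : ∀ (x : E2) (t : ℝ), zeta (x + t • v) = zeta x + t * zeta v := fun x t => by
      rw [map_add, map_smul]; simp
    refine ibp2 v (L1 := fun x => BB F F' (zeta v) (zeta x) / AA F (zeta x)) cL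
      (((cB _).comp cz).div (cA.comp cz) fun x => (AA_pos F _).ne') (cL2 _) ?_ ?_ hφ hc
    · intro x
      unfold HasLineDerivAt
      simp only [hz]
      have h := (hasDerivAt_AA hF (zeta x) (zeta v)).log (AA_pos F _).ne'
      simpa using h
    · intro x
      unfold HasLineDerivAt
      simp only [hz]
      have h := (hasDerivAt_BB hF hF' (zeta x) (zeta v)).fun_div
        (hasDerivAt_AA hF (zeta x) (zeta v)) (AA_pos F _).ne'
      simpa using h
  simp only [← AA_eq, lap_eq, mul_add]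
  rw [integral_add (int_mul cL (iter_cont hφ _) (iter_supp hc _))
    (int_mul cL (iter_cont hφ _) (iter_supp hc _)),
    key, key, ← integral_add (int_mul (cL2 _) hφ.continuous hc) (int_mul (cL2 _) hφ.continuous hc)]
  refine integral_congr_ae (Eventually.of_forall fun x => ?_)
  simp only [zeta_e0, zeta_e1]
  rw [← add_mul, ← add_div]
  congr 2
  rw [Complex.sq_norm, Complex.normSq_apply]
  simp only [AA, BB, CC, Complex.mul_re, Complex.mul_im, Complex.I_re, Complex.I_im,
    Complex.one_re, Complex.one_im]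
  ring

end logF

theorem integral_lap {φ : E2 → ℝ} (hφ : ContDiff ℝ 2 φ) (hc : HasCompactSupport φ) :
    ∫ x, Δ φ x = 0 := by
  have h := green_logF (F := fun _ => 1) (F' := fun _ => 0) (F'' := fun _ => 0)
    (fun z => hasDerivAt_const z _) (fun z => hasDerivAt_const z _) continuous_const hφ hc
  simp only [norm_one, norm_zero, integral_const_mul] at h
  have h2 : Real.log (1 + 1 ^ 2) ≠ 0 := by
    apply ne_of_gt
    apply Real.log_pos
    norm_num
  simp only [ne_eq, OfNat.ofNat_ne_zero, not_false_eq_true, zero_pow, mul_zero, zero_div,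
    zero_mul] at h
  exact (mul_eq_zero.mp h).resolve_left h2

end Pool.Agent.MP_ad2fa1_an.H33
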