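import Pool.Agent.MP_ad2fa1_an.H33.Defs

set_option autoImplicit false

namespace Pool.Agent.MP_ad2fa1_an.H33

open MeasureTheory Filter Topology Set

/-- a tent-like density on `[-1,0]` -/
noncomputable def kk (t : ℝ) : ℝ := max 0 (-6 * t * (1 + t))

/-- the cutoff -/
noncomputable def psi (u : ℝ) : ℝ := -∫ t in (0 : ℝ)..u, kk t

/-- the nonlinearity -/
noncomputable def gg (u : ℝ) : ℝ := Real.exp u * psi u

theorem kk_cont : Continuous kk := by unfold kk; fun_prop

theorem kk_nonneg (t : ℝ) : 0 ≤ kk t := le_max_left _ _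

theorem kk_le (t : ℝ) : kk t ≤ 2 := max_le (by norm_num) (by nlinarith [sq_nonneg (2 * t + 1)])

theorem kk_of_nonneg {t : ℝ} (h : 0 ≤ t) : kk t = 0 := max_eq_left (by nlinarith)

theorem kk_of_le {t : ℝ} (h : t ≤ -1) : kk t = 0 := max_eq_left (by nlinarith)

theorem kk_mid {t : ℝ} (h1 : -1 ≤ t) (h2 : t ≤ 0) : kk t = -6 * t * (1 + t) :=
  max_eq_right (by nlinarith)

theorem psi_deriv (u : ℝ) : HasDerivAt psi (-kk u) u :=
  ((kk_cont.integral_hasStrictDerivAt 0 u).hasDerivAt).neg

theorem psi_cont : Continuous psi :=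
  continuous_iff_continuousAt.mpr fun u => (psi_deriv u).continuousAt

theorem psi_anti : Antitone psi :=
  antitone_of_deriv_nonpos (fun u => (psi_deriv u).differentiableAt) fun u => by
    rw [(psi_deriv u).deriv]; linarith [kk_nonneg u]

theorem psi_of_nonneg {u : ℝ} (h : 0 ≤ u) : psi u = 0 := by
  unfold psi
  rw [intervalIntegral.integral_congr (g := fun _ => 0)]
  · simp
  · intro t ht
    rw [uIcc_of_le h] at ht
    exact kk_of_nonneg ht.1

theorem psi_mid {u : ℝ} (h1 : -1 ≤ u) (h2 : u ≤ 0) : psi u = 3 * u ^ 2 + 2 * u ^ 3 := by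
  unfold psi
  rw [intervalIntegral.integral_congr (g := fun t => -6 * t * (1 + t))]
  · have : ∀ t ∈ uIcc (0 : ℝ) u, HasDerivAt (fun t : ℝ => -(3 * t ^ 2 + 2 * t ^ 3))
        (-6 * t * (1 + t)) t := by
      intro t _
      have := ((((hasDerivAt_id t).fun_pow 2).const_mul 3).fun_add
        (((hasDerivAt_id t).fun_pow 3).const_mul 2)).fun_neg
      refine this.congr_deriv ?_
      simp only [id]
      push_cast
      ring
    rw [intervalIntegral.integral_eq_sub_of_hasDerivAt this
      (Continuous.intervalIntegrable (by fun_prop) _ _)]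
    ring
  · intro t ht
    rw [uIcc_of_ge h2] at ht
    exact kk_mid (h1.trans ht.1) ht.2

theorem psi_of_le {u : ℝ} (h : u ≤ -1) : psi u = 1 := by
  have h1 : psi (-1) = 1 := by rw [psi_mid le_rfl (by norm_num)]; norm_num
  have h2 : ∫ t in (-1 : ℝ)..u, kk t = 0 := by
    rw [intervalIntegral.integral_congr (g := fun _ => 0)]
    · simp
    · intro t ht
      rw [uIcc_of_ge h] at ht
      exact kk_of_le ht.2
  unfold psi at h1 ⊢
  rw [← intervalIntegral.integral_add_adjacent_intervals (b := -1)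
    (kk_cont.intervalIntegrable _ _) (kk_cont.intervalIntegrable _ _), h2]
  linarith

theorem psi_nonneg (u : ℝ) : 0 ≤ psi u := by
  have := psi_anti (le_max_left u 0)
  rwa [psi_of_nonneg (le_max_right u 0)] at this

theorem psi_le_one (u : ℝ) : psi u ≤ 1 := by
  have := psi_anti (min_le_left u (-1))
  rwa [psi_of_le (min_le_right u (-1))] at this

theorem pow_pos_of_neg_two {u : ℝ} (h : u < 0) : 0 < u ^ 2 := by nlinarith

theorem psi_pos {u : ℝ} (h : u < 0) : 0 < psi u := by
  rcases le_total u (-1) with h1 | h1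
  · rw [psi_of_le h1]; norm_num
  · rw [psi_mid h1 h.le]
    have : 0 < u ^ 2 := pow_pos_of_neg_two h
    nlinarith

theorem gg_deriv (u : ℝ) : HasDerivAt gg (Real.exp u * (psi u - kk u)) u := by
  refine ((Real.hasDerivAt_exp u).fun_mul (psi_deriv u)).congr_deriv ?_
  ring

theorem gg_deriv_eq : deriv gg = fun u => Real.exp u * (psi u - kk u) :=
  funext fun u => (gg_deriv u).deriv

theorem gg_cont : Continuous gg := Real.continuous_exp.mul psi_cont

theorem gg_of_le {u : ℝ} (h : u ≤ -1) : gg u = Real.exp u := by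
  unfold gg; rw [psi_of_le h, mul_one]

theorem gg_nonneg (u : ℝ) : 0 ≤ gg u := mul_nonneg (Real.exp_pos u).le (psi_nonneg u)

theorem gg_le (u : ℝ) : gg u ≤ Real.exp u :=
  mul_le_of_le_one_right (Real.exp_pos u).le (psi_le_one u)

theorem gg_pos {u : ℝ} (h : u < 0) : 0 < gg u := mul_pos (Real.exp_pos u) (psi_pos h)

theorem gg_int (u : ℝ) : IntegrableOn gg (Iic u) :=
  (integrableOn_exp_Iic u).mono' gg_cont.aestronglyMeasurable (Eventually.of_forall fun t => by
    rw [Real.norm_eq_abs, abs_of_nonneg (gg_nonneg t)]; exact gg_le t)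

theorem lint_fin {c a M : ℝ} (hc : 0 < c) (hM : a < M) :
    ∫⁻ t in Ioi (0 : ℝ), ENNReal.ofReal (c * Real.exp (a * t) * gg (-M * t)) < ⊤ := by
  have h1 : IntegrableOn (fun t : ℝ => c * Real.exp (-(M - a) * t)) (Ioi 0) :=
    (exp_neg_integrableOn_Ioi 0 (sub_pos.mpr hM)).const_mul c
  refine lt_of_le_of_lt (lintegral_mono fun t => ?_) h1.lintegral_lt_top
  apply ENNReal.ofReal_le_ofReal
  have h2 : Real.exp (-(M - a) * t) = Real.exp (a * t) * Real.exp (-M * t) := by
    rw [← Real.exp_add]; congr 1; ring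
  rw [h2, ← mul_assoc]
  exact mul_le_mul_of_nonneg_left (gg_le _) (by positivity)

theorem lint_inf {c a M : ℝ} (hc : 0 < c) (hM0 : 0 < M) (hM : M ≤ a) :
    ∫⁻ t in Ioi (0 : ℝ), ENNReal.ofReal (c * Real.exp (a * t) * gg (-M * t)) = ⊤ := by
  apply top_unique
  have h1 : ∫⁻ _ in Ioi (M⁻¹), ENNReal.ofReal c = ⊤ := by
    rw [setLIntegral_const, Real.volume_Ioi, ENNReal.mul_top]
    simpa using hc
  rw [← h1]
  calc ∫⁻ _ in Ioi (M⁻¹), ENNReal.ofReal c
      ≤ ∫⁻ t in Ioi (M⁻¹), ENNReal.ofReal (c * Real.exp (a * t) * gg (-M * t)) := by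
        refine setLIntegral_mono' measurableSet_Ioi fun t ht => ENNReal.ofReal_le_ofReal ?_
        have ht' : M⁻¹ < t := ht
        have ht0 : 0 < t := lt_trans (inv_pos.mpr hM0) ht'
        have h2 : 1 < M * t := by
          have := mul_lt_mul_of_pos_left ht' hM0
          rwa [mul_inv_cancel₀ hM0.ne'] at this
        rw [gg_of_le (by linarith), mul_assoc, ← Real.exp_add]
        refine le_mul_of_one_le_right hc.le (Real.one_le_exp ?_)
        nlinarith
    _ ≤ _ := lintegral_mono_set (Ioi_subset_Ioi (inv_pos.mpr hM0).le)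

theorem hyp_exp {c a : ℝ} (hc : 0 < c) (ha : 1 ≤ a) : Hyp (fun t => c * Real.exp (a * t)) gg := by
  have ha0 : 0 < a := by linarith
  have hd : ∀ t, HasDerivAt (fun t => c * Real.exp (a * t)) (c * (Real.exp (a * t) * a)) t :=
    fun t => by simpa using (((hasDerivAt_id t).const_mul a).exp).const_mul c
  have hd' : ∀ t, deriv (fun t => c * Real.exp (a * t)) t = c * (Real.exp (a * t) * a) :=
    fun t => (hd t).deriv
  have hq : ∀ t, deriv (fun t => c * Real.exp (a * t)) t / (c * Real.exp (a * t)) = a := fun t => by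
    rw [hd']; field_simp
  refine ⟨⟨by fun_prop, ?_, ?_, 4, ?_⟩, ⟨fun t => by positivity, ?_, ?_, fun u hu => gg_pos hu⟩,
    fun t => by rw [hd']; positivity, ⟨a + 1, by linarith, ?_, lint_fin hc (by linarith)⟩,
    ⟨?_, ?_⟩, ⟨gg_int, a, 1, ?_, ?_, fun t => (hq t).ge, ?_⟩, 1 / 2, by norm_num, ?_⟩
  · refine contDiff_one_iff_deriv.mpr ⟨fun u => (gg_deriv u).differentiableAt, ?_⟩
    rw [gg_deriv_eq]
    exact Real.continuous_exp.mul (psi_cont.sub kk_cont)
  · have h1 : IntegrableOn (fun t : ℝ => 2 * c * Real.exp (1 / 2 * t)) (Iic 0) :=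
      (integrableOn_exp_mul_Iic (by norm_num) 0).const_mul _
    refine h1.mono' (Continuous.aestronglyMeasurable (by fun_prop)) ?_
    filter_upwards [ae_restrict_mem measurableSet_Iic] with t ht
    have ht' : t ≤ 0 := ht
    rw [norm_mul, Real.norm_eq_abs, Real.norm_eq_abs, abs_of_nonpos ht', abs_of_pos (by positivity)]
    have h2 : -t ≤ 2 * Real.exp (-(1 / 2 * t)) := by
      have := Real.add_one_le_exp (-(1 / 2 * t))
      linarith
    have h3 : Real.exp (a * t) ≤ Real.exp t := Real.exp_le_exp.mpr (by nlinarith)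
    have h4 : Real.exp (-(1 / 2 * t)) * Real.exp t = Real.exp (1 / 2 * t) := by
      rw [← Real.exp_add]; congr 1; ring
    calc -t * (c * Real.exp (a * t)) ≤ (2 * Real.exp (-(1 / 2 * t))) * (c * Real.exp t) := by
          gcongr
      _ = 2 * c * Real.exp (1 / 2 * t) := by rw [← h4]; ring
  · intro u
    rw [gg_deriv_eq]
    rcases le_total 0 u with h | h
    · simp [gg, psi_of_nonneg h, kk_of_nonneg h]
    · have h1 : Real.exp u ≤ 1 := Real.exp_le_one_iff.mpr h
      have h2 := Real.exp_pos u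
      have h3 : |psi u - kk u| ≤ 3 := by
        rw [abs_le]
        constructor <;> linarith [psi_nonneg u, psi_le_one u, kk_nonneg u, kk_le u]
      have h4 := gg_le u
      simp only [abs_mul, abs_of_pos h2, abs_of_nonneg (gg_nonneg u)]
      nlinarith [abs_nonneg (psi u - kk u)]
  · exact (Real.tendsto_exp_atTop.comp (tendsto_id.const_mul_atTop ha0)).const_mul_atTop hc
  · simp [gg, psi_of_nonneg le_rfl]
  · intro u hu
    rw [gg_deriv_eq]
    have h : u ≤ -1 := by linarith
    simp only [psi_of_le h, kk_of_le h, sub_zero, mul_one]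
    exact Real.exp_pos u
  · have : {M : ℝ | 0 < M ∧
        ∫⁻ s in Ioi (0 : ℝ), ENNReal.ofReal (c * Real.exp (a * s) * gg (-M * s)) < ⊤} = Ioi a := by
      ext M
      constructor
      · rintro ⟨h1, h2⟩
        by_contra h3
        rw [lint_inf hc h1 (not_lt.mp h3)] at h2
        exact lt_irrefl _ h2
      · intro h
        exact ⟨lt_trans ha0 h, lint_fin hc h⟩
    rw [this, csInf_Ioi]
    exact lint_inf hc ha0 le_rfl
  · intro d hd0
    refine ⟨Real.exp (-(a * d)), Real.exp_pos _, fun t _ => le_of_eq ?_⟩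
    rw [eq_div_iff (by positivity), mul_left_comm, ← Real.exp_add]
    congr 2
    ring
  · simp only [hq]
    exact tendsto_const_nhds
  · refine tendsto_const_nhds.congr' ?_
    filter_upwards [eventually_le_atBot (-1 : ℝ)] with u hu
    rw [setIntegral_congr_fun measurableSet_Iic (g := Real.exp)
      (fun s hs => gg_of_le (le_trans hs hu)), integral_exp_Iic, gg_of_le hu,
      div_self (Real.exp_pos u).ne']
  · intro u hu
    rw [le_div_iff₀ (gg_pos hu), one_mul]
    have h1 : ∫ s in Iic u, Real.exp s * psi u = gg u := by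
      rw [integral_mul_const, integral_exp_Iic]; rfl
    rw [← h1]
    refine setIntegral_mono_on ((integrableOn_exp_Iic u).mul_const _) (gg_int u)
      measurableSet_Iic fun s hs => ?_
    exact mul_le_mul_of_nonneg_left (psi_anti hs) (Real.exp_pos s).le
  · intro u hu
    rw [gg_deriv_eq]
    have h1 : -1 ≤ u := by linarith [hu.1]
    have h2 : u ≤ 0 := hu.2
    have h3 := hu.1
    refine mul_nonpos_of_nonneg_of_nonpos (Real.exp_pos u).le ?_
    rw [psi_mid h1 h2, kk_mid h1 h2]
    have h4 : 0 ≤ 6 + 9 * u + 2 * u ^ 2 := by nlinarith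
    nlinarith [mul_nonneg (neg_nonneg.mpr h2) h4]

end Pool.Agent.MP_ad2fa1_an.H33
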