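import Pool.Agent.MP_ad2fa1_an.H33.Fund
import Pool.Agent.MP_ad2fa1_an.H33.HypProof

set_option autoImplicit false

namespace Pool.Agent.MP_ad2fa1_an.H33

open MeasureTheory Laplacian Filter Topology Set

/-- the non-radial solution -/
noncomputable def uu (N : ℝ) (n : ℕ) (x : E2) : ℝ :=
  Real.log (8 / 225) + N * (2 * Real.log ‖x‖) - 2 * Real.log (1 + ‖zeta x ^ (n + 1) + 1‖ ^ 2)

theorem exp_uu (N : ℝ) (n : ℕ) {x : E2} (hx : x ≠ 0) :
    Real.exp (uu N n x) = 8 / 225 * ‖x‖ ^ (2 * N) / (1 + ‖zeta x ^ (n + 1) + 1‖ ^ 2) ^ 2 := by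
  have h0 : 0 < ‖x‖ := norm_pos_iff.mpr hx
  have hA : 0 < 1 + ‖zeta x ^ (n + 1) + 1‖ ^ 2 := by positivity
  unfold uu
  rw [Real.exp_sub, Real.exp_add, Real.exp_log (by norm_num), Real.rpow_def_of_pos h0]
  congr 1
  · congr 2; ring
  · rw [show (2 : ℝ) * Real.log (1 + ‖zeta x ^ (n + 1) + 1‖ ^ 2) =
      Real.log ((1 + ‖zeta x ^ (n + 1) + 1‖ ^ 2) ^ 2) by rw [Real.log_pow]; norm_num,
      Real.exp_log (by positivity)]

theorem uu_le {N : ℝ} {n : ℕ} (hN : 0 ≤ N) (hn : N ≤ n) {x : E2} (hx : x ≠ 0) :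
    uu N n x ≤ -1 := by
  rw [← Real.exp_le_exp, exp_uu N n hx]
  have h0 : 0 < ‖x‖ := norm_pos_iff.mpr hx
  set s : ℝ := ‖x‖ ^ (n + 1) with hs
  have hs0 : 0 ≤ s := by positivity
  have h1 : ‖x‖ ^ (2 * N) ≤ 1 + s ^ 2 := by
    rcases le_total ‖x‖ 1 with h | h
    · have := Real.rpow_le_one h0.le h (show 0 ≤ 2 * N by linarith)
      nlinarith
    · have h2 : ‖x‖ ^ (2 * N) ≤ ‖x‖ ^ ((((n + 1) * 2 : ℕ)) : ℝ) :=
        Real.rpow_le_rpow_of_exponent_le h (by push_cast; linarith)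
      rw [Real.rpow_natCast, pow_mul] at h2
      linarith
  have h2 : s - 1 ≤ ‖zeta x ^ (n + 1) + 1‖ := by
    have := norm_sub_le (zeta x ^ (n + 1) + 1) 1
    rw [add_sub_cancel_right, norm_pow, LinearIsometryEquiv.norm_map, norm_one] at this
    linarith
  have h3 : 1 - s ≤ ‖zeta x ^ (n + 1) + 1‖ := by
    have := norm_sub_le (zeta x ^ (n + 1) + 1) (zeta x ^ (n + 1))
    rw [add_sub_cancel_left, norm_pow, LinearIsometryEquiv.norm_map, norm_one] at this
    linarith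
  have h4 : (s - 1) ^ 2 ≤ ‖zeta x ^ (n + 1) + 1‖ ^ 2 := sq_le_sq' (by linarith) h2
  set A : ℝ := 1 + ‖zeta x ^ (n + 1) + 1‖ ^ 2 with hA
  have h5 : 1 + s ^ 2 ≤ 3 * A := by nlinarith [sq_nonneg (2 * s - 3)]
  have h6 : 1 + s ^ 2 ≤ 9 * A ^ 2 := by nlinarith [sq_nonneg s]
  have hA0 : 0 < A := by positivity
  have h7 := Real.exp_neg_one_gt_d9
  rw [div_le_iff₀ (by positivity)]
  nlinarith [sq_nonneg A]

theorem isSol_uu {N : ℝ} {n : ℕ} (hN : 0 ≤ N) (hn : N ≤ n) :
    IsSol N (fun r => 225 * ((n : ℝ) + 1) ^ 2 * r ^ (2 * ((n : ℝ) - N)))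
      (fun s => s * psi (Real.log s)) (uu N n) := by
  have hne : ∀ᵐ x : E2, x ≠ 0 := by
    have : ({0}ᶜ : Set E2) ∈ ae (volume : Measure E2) := compl_mem_ae_iff.mpr (measure_singleton _)
    filter_upwards [this] with x hx using hx
  have cz : Continuous zeta := zeta.continuous
  have cL : Continuous fun x : E2 => Real.log (1 + ‖zeta x ^ (n + 1) + 1‖ ^ 2) :=
    Continuous.log (by fun_prop) fun x => by positivity
  let h : E2 → ℝ := fun x =>
    4 * ‖((n : ℂ) + 1) * zeta x ^ n‖ ^ 2 / (1 + ‖zeta x ^ (n + 1) + 1‖ ^ 2) ^ 2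
  have ch : Continuous h := Continuous.div (by fun_prop) (by fun_prop) fun x => by positivity
  have hrhs : ∀ x : E2, x ≠ 0 → 225 * ((n : ℝ) + 1) ^ 2 * ‖x‖ ^ (2 * ((n : ℝ) - N)) *
      (Real.exp (uu N n x) * psi (Real.log (Real.exp (uu N n x)))) = 2 * h x := by
    intro x hx
    have h0 : 0 < ‖x‖ := norm_pos_iff.mpr hx
    rw [Real.log_exp, psi_of_le (uu_le hN hn hx), mul_one, exp_uu N n hx]
    have e1 : ‖x‖ ^ (2 * ((n : ℝ) - N)) * ‖x‖ ^ (2 * N) = (‖x‖ ^ n) ^ 2 := by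
      rw [← Real.rpow_add h0, ← pow_mul, ← Real.rpow_natCast]
      congr 1
      push_cast
      ring
    have e2 : ‖((n : ℂ) + 1) * zeta x ^ n‖ = ((n : ℝ) + 1) * ‖x‖ ^ n := by
      rw [norm_mul, norm_pow, LinearIsometryEquiv.norm_map]
      congr 1
      exact_mod_cast Complex.norm_natCast (n + 1)
    simp only [h, e2]
    rw [mul_pow, ← e1]
    field_simp
    ring
  have hloc : LocallyIntegrable (fun x : E2 => N * (2 * Real.log ‖x‖)) :=
    fun x => ((locInt_log x).imp fun s hs => ⟨hs.1, (hs.2.const_mul 2).const_mul N⟩)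
  refine ⟨?_, ?_, ?_, ?_⟩
  · exact ((continuous_const.locallyIntegrable).add hloc).sub
      (continuous_const.mul cL).locallyIntegrable
  · intro x hx
    have hx' : x ≠ 0 := hx
    apply ContDiffAt.contDiffWithinAt
    unfold uu
    refine (contDiffAt_const.add (contDiffAt_const.mul (contDiffAt_const.mul
      (ContDiffAt.log (contDiffAt_norm ℝ hx') (norm_ne_zero_iff.mpr hx'))))).sub
      (contDiffAt_const.mul (ContDiffAt.log ?_ (by positivity)))
    exact (contDiff_const.add (((zeta.contDiff.pow _).add contDiff_const).norm_sq ℝ)).contDiffAt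
  · refine ((continuous_const.mul ch : Continuous fun x => 2 * h x).locallyIntegrable).congr ?_
    filter_upwards [hne] with x hx
    exact (hrhs x hx).symm
  · intro φ hφ hc
    have hφ2 : ContDiff ℝ 2 φ := contDiff_infty.mp hφ 2
    have cΔ := lap_cont hφ2
    have sΔ := lap_supp hc
    have g1 := green_logF (F := fun z => z ^ (n + 1) + 1) (F' := fun z => ((n : ℂ) + 1) * z ^ n)
      (F'' := fun z => ((n : ℂ) + 1) * (n * z ^ (n - 1)))
      (fun z => by simpa using (hasDerivAt_pow (n + 1) z).add_const 1)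
      (fun z => (hasDerivAt_pow n z).const_mul _) (by fun_prop) hφ2 hc
    have g2 := fundamental hφ2 hc
    have g3 := integral_lap hφ2 hc
    have i1 : Integrable fun x : E2 => Real.log (8 / 225) * Δ φ x :=
      int_mul continuous_const cΔ sΔ
    have i2 : Integrable fun x : E2 => N * (2 * Real.log ‖x‖ * Δ φ x) := by
      have := hloc.integrable_smul_right_of_hasCompactSupport cΔ sΔ
      simpa only [smul_eq_mul, mul_assoc] using this
    have i3 : Integrable fun x : E2 =>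
        2 * (Real.log (1 + ‖zeta x ^ (n + 1) + 1‖ ^ 2) * Δ φ x) := (int_mul cL cΔ sΔ).const_mul 2
    have e1 : ∫ x, uu N n x * Δ φ x = ∫ x, (Real.log (8 / 225) * Δ φ x +
        N * (2 * Real.log ‖x‖ * Δ φ x) -
        2 * (Real.log (1 + ‖zeta x ^ (n + 1) + 1‖ ^ 2) * Δ φ x)) := by
      refine integral_congr_ae (Eventually.of_forall fun x => ?_)
      simp only [uu]
      ring
    have e2 : ∫ x : E2, 225 * ((n : ℝ) + 1) ^ 2 * ‖x‖ ^ (2 * ((n : ℝ) - N)) *
        (Real.exp (uu N n x) * psi (Real.log (Real.exp (uu N n x)))) * φ x =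
        2 * ∫ x, h x * φ x := by
      rw [← integral_const_mul]
      refine integral_congr_ae ?_
      filter_upwards [hne] with x hx
      rw [hrhs x hx, mul_assoc]
    have i12 : Integrable fun x : E2 => Real.log (8 / 225) * Δ φ x +
        N * (2 * Real.log ‖x‖ * Δ φ x) := i1.add i2
    rw [e1, e2, integral_sub i12 i3, integral_add i1 i2, integral_const_mul,
      integral_const_mul, integral_const_mul, g1, g2, g3]
    ring

theorem not_radial (N : ℝ) (n : ℕ) :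
    ∃ x y : E2, x ≠ 0 ∧ ‖x‖ = ‖y‖ ∧ uu N n x ≠ uu N n y := by
  let w : ℂ := Complex.exp ((Real.pi / ((n : ℝ) + 1) : ℝ) * Complex.I)
  have hw : ‖w‖ = 1 := Complex.norm_exp_ofReal_mul_I _
  have hw2 : w ^ (n + 1) = -1 := by
    have hn : ((n : ℂ) + 1) ≠ 0 := by exact_mod_cast Nat.succ_ne_zero n
    simp only [w]
    rw [← Complex.exp_nat_mul, ← Complex.exp_pi_mul_I]
    congr 1
    push_cast
    field_simp
  refine ⟨zeta.symm 1, zeta.symm w, ?_, ?_, ?_⟩
  · intro h
    have := congrArg norm h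
    simp at this
  · simp [hw]
  · simp only [uu, LinearIsometryEquiv.norm_map, LinearIsometryEquiv.apply_symm_apply, hw, hw2,
      norm_one, one_pow]
    intro h
    have h1 : Real.log (1 + ‖(1 : ℂ) + 1‖ ^ 2) = Real.log (1 + ‖(-1 : ℂ) + 1‖ ^ 2) :=
      mul_left_cancel₀ two_ne_zero (sub_right_inj.mp h)
    have h2 : 0 < Real.log (1 + ‖(1 : ℂ) + 1‖ ^ 2) := by
      apply Real.log_pos
      have : 0 < ‖(1 : ℂ) + 1‖ := norm_pos_iff.mpr (by norm_num)
      nlinarith
    rw [h1] at h2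
    simp at h2

end Pool.Agent.MP_ad2fa1_an.H33
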